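import Pool.Agent.R535.LG.Hard

/-!
# Computing task frequencies of linear graphs is PSPACE-hard

Already for unitary consistent linear graphs all of whose frequencies exist, the comparison of the
frequency of task `0` with the constant `1/3` decides any given problem of `PSPACE`.
-/

namespace Pool.Agent.Results.MP_b03ab8_lc.PspaceHard

open Pool.Agent.NPC Pool.Agent.NPC.LG535 Pool.Agent.H623R2.PS

/-- (1) For every language `L` in `PSPACE` there is a polynomial-time function which maps each
string `x` to a linear graph `f x` that is valid, unitary (strongly connected, all circuits of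
weight `1`), consistent, has positive finite frequencies for all its tasks, and satisfies:
`x ∈ L` iff the frequency of its task `0` is less than `1/3`.
(2) A polynomial-time algorithm which computes the frequencies of all tasks of such graphs would
put `PSPACE` into `P`. -/
theorem result :
    (∀ L : Set (List Bool), InPSPACE L →
      ∃ f : List Bool → LinGraph, PolyTime (fun x => bits (f x)) ∧
        ∀ x, Nice (f x) ∧ 0 < (f x).n ∧ ∀ φ, (f x).IsFreq 0 φ → (x ∈ L ↔ φ < 1 / 3)) ∧
    ∀ N : List Bool → List Bool, PolyTime N → Computes Nice N →
      ∀ L : Set (List Bool), InPSPACE L → InP L := by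
  refine ⟨fun L hL => ?_, fun N hN h => collapse_pspace hN h⟩
  obtain ⟨f, hf, h⟩ := hard_pspace hL
  exact ⟨f, polyTime_bits hf, h⟩

end Pool.Agent.Results.MP_b03ab8_lc.PspaceHard
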