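import Pool.Agent.R535.LG.Hard

/-!
# Computing task frequencies of linear graphs without overlapping occurrences is `#P`-hard

Here every task carries the uniform loop which forbids two successive occurrences to overlap, and
all processing times are `1` or `2`.
-/

namespace Pool.Agent.Results.MP_b03ab8_lc.SharpPHard

open Pool.Agent.NPC Pool.Agent.NPC.LG535 Pool.Agent.NPC.Cnt

/-- (1) For every language `L` in `PP` there are polynomial-time functions which map each string
`x` to a linear graph `f x` and natural numbers `a x`, `b x` such that `f x` is valid, unitary,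
consistent, non-reentrant, has positive finite frequencies for all its tasks and processing times
at most `2`, and: `x ∈ L` iff `b x > 0` and the frequency of task `0` is at least `a x / b x`.
(2) A polynomial-time algorithm which computes the frequencies of all tasks of such graphs would
put `#P` into `FP`. -/
theorem result :
    (∀ L : Set (List Bool), Med.InPPc L →
      ∃ (f : List Bool → LinGraph) (a b : List Bool → ℕ),
        PolyTime (fun x => bits (f x)) ∧ PolyTime (fun x => bits (a x)) ∧
          PolyTime (fun x => bits (b x)) ∧
        ∀ x, Nice (f x) ∧ (f x).NonReentrant ∧ 0 < (f x).n ∧ (∀ q ∈ (f x).p, q ≤ 2) ∧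
          ∀ φ, (f x).IsFreq 0 φ → (x ∈ L ↔ 0 < b x ∧ (a x : ℝ) / b x ≤ φ)) ∧
    ∀ N : List Bool → List Bool, PolyTime N →
      Computes (fun G => Nice G ∧ G.NonReentrant) N → ∀ f, SharpP f → FP f := by
  refine ⟨fun L hL => ?_, fun N hN h => collapse_sharpP hN h⟩
  obtain ⟨f, a, b, hf, ha, hb, h⟩ := hard_pp hL
  exact ⟨f, a, b, polyTime_bits hf, polyTime_bits ha, polyTime_bits hb, h⟩

end Pool.Agent.Results.MP_b03ab8_lc.SharpPHard
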